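import Pool.Agent.Y866.US.Rate

/-!
# The probability that `Av(π)` is unsplittable, with a rate, and the reason for its limit

`p n` (imported): the probability that `Av(π)` is unsplittable for a uniformly random permutation `π` of size `n`.
The proof refines the starting result `LimitExpNegTwo`.
-/

set_option autoImplicit false

namespace Pool.Agent.Results.MP_d28c7d_co.ExplicitRate

open Pool.Agent.W6.PS

/-- `π` is simple: it has no interval (a set of consecutive positions whose values form a set of consecutive integers)
of size `k` with `2 ≤ k < n`. -/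
def IsSimple {n : ℕ} (π : Equiv.Perm (Fin n)) : Prop :=
  ∀ k, 2 ≤ k → k < n → ¬ ∃ s v : ℕ, s + k ≤ n ∧ ∀ i : Fin n, s ≤ i.val → i.val < s + k →
    v ≤ (π i).val ∧ (π i).val < v + k

open Classical in
/-- The proportion of the permutations `π` of size `n` for which the equivalence
that `Av(π)` is unsplittable if and only if `π` is simple fails. -/
noncomputable def exceptional (n : ℕ) : ℝ :=
  ((Finset.univ.filter (fun π : Equiv.Perm (Fin n) => ¬ (Unsplittable (Av π) ↔ IsSimple π))).card : ℝ) /
    (n.factorial : ℝ)

/-- For every `n ≥ 1` all but at most `465648 / n` of the permutations `π` of size `n` satisfy: `Av(π)` is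
unsplittable if and only if `π` is simple; and `|p n - e ^ (-2)| ≤ 462252 / n`. In particular `p n → e ^ (-2)`. -/
theorem result (n : ℕ) (hn : 1 ≤ n) :
    exceptional n ≤ 465648 / n ∧ |p n - Real.exp (-2)| ≤ 462252 / n := by
  refine ⟨le_trans ?_ (Pool.Agent.Y866.US.rare n hn), Pool.Agent.Y866.US.rate n hn⟩
  classical
  unfold exceptional Pool.Agent.TH691.US.frac
  apply div_le_div_of_nonneg_right _ (by positivity)
  refine Nat.cast_le.2 (Finset.card_le_card ?_)
  intro π hπ
  have h := (Finset.mem_filter.1 hπ).2
  refine (@Finset.mem_filter _ _ (fun _ => Classical.propDecidable _) _ _).2 ⟨Finset.mem_univ π, ?_⟩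
  exact (by
    by_cases hs : IsSimple π
    · exact absurd ⟨fun _ => hs, fun _ => Pool.Agent.TH691.US.unsplittable_of_simple π hs⟩ h
    · have hu : Unsplittable (Av π) := by
        by_contra hu
        exact h ⟨fun h' => absurd h' hu, fun h' => absurd h' hs⟩
      refine ⟨?_, hu⟩
      unfold IsSimple at hs
      push Not at hs
      obtain ⟨k, h2, hk, hb⟩ := hs
      exact ⟨k, h2, hk, hb⟩)

end Pool.Agent.Results.MP_d28c7d_co.ExplicitRate
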